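import Mathlib
import Pool.Agent.H594Z.RRMain

set_option autoImplicit false

open Filter Topology

namespace Pool.Agent.Results.MP_c07d40_pr.NotReconstructable

open Pool.Agent.H594Z.RR

/-- For every `ε > 0`: (i) if `n^ε ≤ d_n ≤ n^(1/2-ε)` (with `n d_n` even) for all large `n`, a
uniformly random `d_n`-regular graph on `n` vertices is a.a.s. not reconstructable from its
1-neighbourhoods; (ii) if `n^ε ≤ d_n ≤ n^(1/4-ε)`, it is a.a.s. not reconstructable from its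
2-neighbourhoods. -/
theorem result : ∀ ε : ℝ, 0 < ε →
    (∀ d : ℕ → ℕ,
      (∀ᶠ n : ℕ in atTop, Even (n * d n) ∧ (n : ℝ) ^ ε ≤ d n ∧ (d n : ℝ) ≤ (n : ℝ) ^ (1 / 2 - ε)) →
      Tendsto (fun n => probNotRec n (d n) 1) atTop (𝓝 1)) ∧
    (∀ d : ℕ → ℕ,
      (∀ᶠ n : ℕ in atTop, Even (n * d n) ∧ (n : ℝ) ^ ε ≤ d n ∧ (d n : ℝ) ≤ (n : ℝ) ^ (1 / 4 - ε)) →
      Tendsto (fun n => probNotRec n (d n) 2) atTop (𝓝 1)) := by
  intro ε hε
  constructor
  · intro d hd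
    refine main 1 (by norm_num) ε hε d ?_
    rw [show (1 : ℝ) / (2 * ((1 : ℕ) : ℝ)) = 1 / 2 by norm_num]
    exact hd
  · intro d hd
    refine main 2 (by norm_num) ε hε d ?_
    rw [show (1 : ℝ) / (2 * ((2 : ℕ) : ℝ)) = 1 / 4 by norm_num]
    exact hd

end Pool.Agent.Results.MP_c07d40_pr.NotReconstructable
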